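import Pool.Agent.Helper45.RT.Stmts3

/-!
The dihedral group: rows DSG, DCOL, RLD, RLR, DIH, TAU of project RTwo (MP_47dd75_co).
-/

set_option autoImplicit false

namespace RTwo

open Finset

namespace H98

theorem key0 {n a b : ℕ} (ha : a < n) (hb : b < n) :
    (n - 1 - a + b) % n = n - 1 - (a + (n - b)) % n := by
  rcases Nat.lt_or_ge a b with h | h
  · have e1 : n - 1 - a + b = (b - 1 - a) + n := by omega
    rw [e1, Nat.add_mod_right, Nat.mod_eq_of_lt (show b - 1 - a < n by omega),
      Nat.mod_eq_of_lt (show a + (n - b) < n by omega)]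
    omega
  · have e2 : a + (n - b) = (a - b) + n := by omega
    rw [e2, Nat.add_mod_right, Nat.mod_eq_of_lt (show a - b < n by omega),
      Nat.mod_eq_of_lt (show n - 1 - a + b < n by omega)]
    omega

theorem key {n a : ℕ} (b : ℕ) (ha : a < n) :
    (n - 1 - a + b) % n = n - 1 - (a + (n - b % n)) % n := by
  have hn : 0 < n := by omega
  have h1 : (n - 1 - a + b) % n = (n - 1 - a + b % n) % n := (Nat.add_mod_mod _ _ _).symm
  rw [h1]
  exact key0 ha (Nat.mod_lt b hn)

theorem shift_mod (n i r r' : ℕ) : ((i + r') % n + r) % n = (i + (r' + r) % n) % n := by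
  rw [Nat.mod_add_mod, Nat.add_mod_mod, Nat.add_assoc]

theorem shift_back {n r i : ℕ} (hi : i < n) : ((i + (n - r % n) % n) % n + r) % n = i := by
  have hn : 0 < n := by omega
  have hr := Nat.mod_lt r hn
  have h1 : ((i + (n - r % n) % n) % n + r) % n = (i + (n - r % n) + r % n) % n := by
    simp [Nat.add_mod]
  rw [h1, show i + (n - r % n) + r % n = i + n by omega, Nat.add_mod_right, Nat.mod_eq_of_lt hi]

theorem shift_back' {n r i : ℕ} (hi : i < n) : ((i + r) % n + (n - r % n) % n) % n = i := by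
  have hn : 0 < n := by omega
  have hr := Nat.mod_lt r hn
  have h1 : ((i + r) % n + (n - r % n) % n) % n = (i + r % n + (n - r % n)) % n := by
    simp [Nat.add_mod]
  rw [h1, show i + r % n + (n - r % n) = i + n by omega, Nat.add_mod_right, Nat.mod_eq_of_lt hi]

theorem dsg_lt {n : ℕ} (hn : 0 < n) (r f i : ℕ) : dsg n r f i < n := by
  unfold dsg
  have := Nat.mod_lt (i + r) hn
  split_ifs <;> omega

theorem dsg_comp {n : ℕ} (hn : 0 < n) (r f r' f' : ℕ) :
    ∃ r'' f'', r'' < n ∧ ∀ i, i < n → dsg n r f (dsg n r' f' i) = dsg n r'' f'' i := by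
  by_cases hf : f = 0
  · by_cases hf' : f' = 0
    · refine ⟨(r' + r) % n, 0, Nat.mod_lt _ hn, fun i _ => ?_⟩
      simp only [dsg, hf, hf', if_true]
      exact shift_mod n i r r'
    · refine ⟨(r' + (n - r % n)) % n, 1, Nat.mod_lt _ hn, fun i _ => ?_⟩
      simp only [dsg, hf, hf', if_true, if_false, one_ne_zero]
      rw [key r (Nat.mod_lt _ hn), shift_mod n i (n - r % n) r']
  · by_cases hf' : f' = 0
    · refine ⟨(r' + r) % n, 1, Nat.mod_lt _ hn, fun i _ => ?_⟩
      simp only [dsg, hf, hf', if_true, if_false, one_ne_zero]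
      rw [shift_mod n i r r']
    · refine ⟨(r' + (n - r % n)) % n, 0, Nat.mod_lt _ hn, fun i _ => ?_⟩
      simp only [dsg, hf, hf', if_true, if_false]
      rw [key r (Nat.mod_lt _ hn), shift_mod n i (n - r % n) r']
      have := Nat.mod_lt (i + (r' + (n - r % n)) % n) hn
      omega

theorem dsg_inv {n : ℕ} (hn : 0 < n) (r f : ℕ) :
    ∃ r' f', r' < n ∧ ∀ i, i < n → dsg n r f (dsg n r' f' i) = i ∧
      dsg n r' f' (dsg n r f i) = i := by
  by_cases hf : f = 0
  · refine ⟨(n - r % n) % n, 0, Nat.mod_lt _ hn, fun i hi => ?_⟩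
    simp only [dsg, hf, if_true]
    exact ⟨shift_back hi, shift_back' hi⟩
  · refine ⟨r % n, 1, Nat.mod_lt _ hn, fun i hi => ?_⟩
    have h1 : ∀ s t, s % n = t % n → n - 1 - (n - 1 - (i + s) % n + t) % n = i := by
      intro s t hst
      rw [key t (Nat.mod_lt _ hn)]
      have h2 : ((i + s) % n + (n - t % n)) % n = i := by
        rw [← hst]
        have h3 : ((i + s) % n + (n - s % n)) % n = ((i + s) % n + (n - s % n) % n) % n := by
          simp [Nat.add_mod]
        rw [h3]
        exact shift_back' hi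
      rw [h2]
      omega
    simp only [dsg, hf, if_false, one_ne_zero]
    exact ⟨h1 _ _ (Nat.mod_mod _ _), h1 _ _ (Nat.mod_mod _ _).symm⟩

theorem dsg_inj {n : ℕ} (hn : 0 < n) (r f : ℕ) {i j : ℕ} (hi : i < n) (hj : j < n)
    (h : dsg n r f i = dsg n r f j) : i = j := by
  obtain ⟨r', f', -, h1⟩ := dsg_inv hn r f
  rw [← (h1 i hi).2, ← (h1 j hj).2, h]

theorem sum_dsg {n : ℕ} (hn : 0 < n) (r f : ℕ) (F : ℕ → ℕ) :
    ∑ v ∈ range n, F (dsg n r f v) = ∑ v ∈ range n, F v := by
  obtain ⟨r', f', -, h1⟩ := dsg_inv hn r f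
  refine Finset.sum_nbij' (dsg n r f) (dsg n r' f') ?_ ?_ ?_ ?_ ?_
  · intro i _; exact mem_range.2 (dsg_lt hn _ _ _)
  · intro i _; exact mem_range.2 (dsg_lt hn _ _ _)
  · intro i hi; exact (h1 i (mem_range.1 hi)).2
  · intro i hi; exact (h1 i (mem_range.1 hi)).1
  · intro i _; rfl

theorem nA_sum (n : ℕ) (c : Col) (v : ℕ) :
    nA n c v = ∑ w ∈ range n, if c v w = 1 then 1 else 0 := by
  unfold nA
  rw [card_filter]

theorem nB_sum (n : ℕ) (c : Col) (v : ℕ) :
    nB n c v = ∑ w ∈ range n, if c v w = 2 then 1 else 0 := by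
  unfold nB
  rw [card_filter]

theorem nA_dcol {n : ℕ} (hn : 0 < n) (r f : ℕ) (c : Col) (v : ℕ) :
    nA n (dcol n r f c) v = nA n c (dsg n r f v) := by
  rw [nA_sum, nA_sum]
  exact sum_dsg hn r f (fun w => if c (dsg n r f v) w = 1 then 1 else 0)

theorem nB_dcol {n : ℕ} (hn : 0 < n) (r f : ℕ) (c : Col) (v : ℕ) :
    nB n (dcol n r f c) v = nB n c (dsg n r f v) := by
  rw [nB_sum, nB_sum]
  exact sum_dsg hn r f (fun w => if c (dsg n r f v) w = 2 then 1 else 0)

end H98

open H98

theorem st_DSG : ST_DSG := fun _ hn =>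
  ⟨fun _ _ _ _ => dsg_lt hn _ _ _, fun _ _ _ _ hi hj h => dsg_inj hn _ _ hi hj h,
    fun r f r' f' => dsg_comp hn r f r' f', fun r f => dsg_inv hn r f⟩

theorem st_DCOL : ST_DCOL := by
  intro n r f c hn hc
  refine ⟨?_, ?_, ?_, ?_⟩
  · intro i j _ _
    exact hc _ _ (dsg_lt hn r f i) (dsg_lt hn r f j)
  · unfold totA
    simp only [nA_dcol hn]
    exact sum_dsg hn r f (nA n c)
  · unfold totB
    simp only [nB_dcol hn]
    exact sum_dsg hn r f (nB n c)
  · intro v _
    unfold dgr
    rw [nA_dcol hn, nB_dcol hn]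

namespace H98

theorem cr_rot (u v w : ℂ) : cr v w u = cr u v w := by
  unfold cr
  ring

theorem cpos_shift {n : ℕ} {p : ℕ → ℂ} (h : CPos n p) (r : ℕ) :
    CPos n (fun i => p ((i + r) % n)) := by
  intro i j k hij hjk hk
  have hn : 0 < n := by omega
  have hs := Nat.mod_lt r hn
  have e : ∀ t, t < n → (t + r) % n = if t + r % n < n then t + r % n else t + r % n - n := by
    intro t ht
    have h1 : (t + r) % n = (t + r % n) % n := by simp [Nat.add_mod]
    rw [h1]
    split_ifs with h2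
    · exact Nat.mod_eq_of_lt h2
    · rw [Nat.mod_eq_sub_mod (by omega), Nat.mod_eq_of_lt (by omega)]
  dsimp only
  rw [e i (by omega), e j (by omega), e k hk]
  split_ifs with h1 h2 h3 h4 h5 h6 <;> try omega
  · exact h _ _ _ (by omega) (by omega) (by omega)
  · have := h (k + r % n - n) (i + r % n) (j + r % n) (by omega) (by omega) (by omega)
    rwa [← cr_rot] at this
  · have := h (j + r % n - n) (k + r % n - n) (i + r % n) (by omega) (by omega) (by omega)
    rwa [cr_rot] at this
  · exact h _ _ _ (by omega) (by omega) (by omega)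

theorem cpos_rev {n : ℕ} {p : ℕ → ℂ} (h : CPos n p) :
    CPos n (fun i => (starRingEnd ℂ) (p (n - 1 - i))) := by
  intro i j k hij hjk hk
  have h1 := h (n - 1 - k) (n - 1 - j) (n - 1 - i) (by omega) (by omega) (by omega)
  unfold cr at h1 ⊢
  simp only [Complex.conj_re, Complex.conj_im]
  linarith

end H98

theorem st_RLD : ST_RLD := by
  intro I n r f c hn h
  obtain ⟨p, a, b, hp, ha, hab, hI, hc⟩ := h
  by_cases hf : f = 0
  · refine ⟨fun i => p ((i + r) % n), a, b, cpos_shift hp r, ha, hab, hI, fun i j _ _ => ?_⟩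
    have := hc ((i + r) % n) ((j + r) % n) (Nat.mod_lt _ hn) (Nat.mod_lt _ hn)
    simpa only [dcol, dsg, hf, if_true] using this
  · refine ⟨fun i => (starRingEnd ℂ) (p (n - 1 - (i + r) % n)), a, b,
      cpos_shift (cpos_rev hp) r, ha, hab, hI, fun i j _ _ => ?_⟩
    have h1 := Nat.mod_lt (i + r) hn
    have h2 := Nat.mod_lt (j + r) hn
    have := hc (n - 1 - (i + r) % n) (n - 1 - (j + r) % n) (by omega) (by omega)
    simp only [dcol, dsg, hf, if_false]
    rw [Complex.dist_conj_conj]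
    exact this

theorem st_RLR : ST_RLR := by
  intro I J m n c d g h hIJ hg hgn hd
  obtain ⟨p, a, b, hp, ha, hab, hI, hc⟩ := h
  refine ⟨fun i => p (g i), a, b, ?_, ha, hab, hIJ _ _ hI, ?_⟩
  · intro i j k hij hjk hk
    exact hp _ _ _ (hg i j hij (by omega)) (hg j k hjk hk) (hgn k hk)
  · intro i j hi hj
    have h1 := hc (g i) (g j) (hgn i hi) (hgn j hj)
    exact ⟨fun h2 => h1.1 (hd i j 0 hi hj (by norm_num) h2),
      fun h2 => h1.2 (hd i j 1 hi hj (by norm_num) h2)⟩

theorem st_DIH (h1 : ST_ROT) (h2 : ST_REV) : ST_DIH := by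
  intro n r f c hn hn' hr hc
  by_cases hf : f = 0
  · subst hf
    exact h1 n r c hn' hr hc
  · have e : dih n r f (code n c) = rotr n r (revn n (code n c)) := by
      unfold dih
      have : Nat.beq f 0 = false := by
        cases f with
        | zero => exact absurd rfl hf
        | succ f => rfl
      rw [this]
      rfl
    rw [e, h2 n c hn hn' hc, h1 n r _ hn' hr fun i j hi hj => hc _ _ (by omega) (by omega)]
    congr 1
    funext i j
    simp only [dcol, dsg, hf, if_false]

theorem st_TAU : ST_TAU := by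
  intro k r f c hk hr hc
  have hr' : r % k = r := Nat.mod_eq_of_lt hr
  by_cases hf : f = 0
  · refine ⟨c, (k - r % k) % k, hc, Nat.mod_lt _ hk, ?_, Or.inl fun _ _ _ _ => rfl⟩
    intro i j hi hj
    simp only [dcol, dsg, hf, if_true]
    rw [shift_back hi, shift_back hj]
  · refine ⟨dcol (k + 1) 1 1 c, (k - r % k) % k, (st_DCOL (k + 1) 1 1 c (by omega) hc).1,
      Nat.mod_lt _ hk, ?_, Or.inr fun _ _ _ _ => rfl⟩
    have e : ∀ i, i < k → dsg (k + 1) 1 1 i = k - 1 - i := by
      intro i hi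
      simp only [dsg, if_false, one_ne_zero]
      rw [Nat.mod_eq_of_lt (by omega)]
      omega
    intro i j hi hj
    have e1 : ∀ i, i < k → dsg k r f ((i + (k - r % k) % k) % k) = k - 1 - i := by
      intro i hi
      simp only [dsg, hf, if_false]
      rw [shift_back hi]
    simp only [dcol]
    rw [e i hi, e j hj, e1 i hi, e1 j hj]

end RTwo
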